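import Mathlib
import Pool.Agent.H29.TokenDefs
import Pool.Agent.H29.Token

set_option autoImplicit false

namespace Pool.Agent.Results.MP_a6415b_co.Unbounded

open Pool.Agent.H29.Token

theorem result : ∀ c : ℝ, ∃ (V : Type) (_ : Fintype V) (G : SimpleGraph V),
    ∀ w : ℕ, 2 ≤ w → c * w < (value w G : ℝ) := by
  intro c
  obtain ⟨j, hj⟩ := exists_nat_gt (6 * c)
  obtain ⟨V, _, G, h⟩ := lower j
  refine ⟨V, inferInstance, G, fun w hw => ?_⟩
  have h1 : j * w ≤ 6 * value w G := by
    have h2 := h w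
    have h3 : w ≤ 3 * (w / 2) := by omega
    nlinarith
  have h2 : (j : ℝ) * w ≤ 6 * value w G := by exact_mod_cast h1
  have h3 : (0 : ℝ) < w := by exact_mod_cast (by omega : 0 < w)
  nlinarith

end Pool.Agent.Results.MP_a6415b_co.Unbounded
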